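import Mathlib
import Pool.Agent.N922.PQ.Lat

/-!
# Project PQ, part TTB (helper774): from `TTV` to `TT` in a normalised basis
-/

set_option autoImplicit false
set_option linter.all false

open Matrix
open scoped Classical

namespace Pool.Agent.N774.PQ

open Pool.Agent.N874.PP (Tup chA chB gq tau Two)
open Pool.Agent.N922.PQ

/-- An isotropic vector with last coordinate non-zero. -/
lemma fld_gq {F : Type} [Field F] (h2 : (2 : F) ≠ 0) (x y c z w p q r : F) (hr : r ≠ 0)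
    (h : 2 * p * r + q ^ 2 = 0)
    (hB : x * p ^ 2 + 2 * y * p * q + 2 * c * p * r - 2 * c * q ^ 2 + 2 * z * q * r +
      w * r ^ 2 = 0) :
    ∃ u : F, q = 2 * r * u ∧ p = -2 * r * u ^ 2 ∧
      4 * x * u ^ 4 - 8 * y * u ^ 3 - 12 * c * u ^ 2 + 4 * z * u + w = 0 := by
  have hq : q = 2 * r * (q / (2 * r)) := by field_simp
  generalize q / (2 * r) = u at hq
  have hp : p = -2 * r * u ^ 2 := by
    have h1 : (2 * r) * (p + 2 * r * u ^ 2) = 0 := by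
      rw [hq] at h
      linear_combination h
    have h3 := (mul_eq_zero.1 h1).resolve_left (mul_ne_zero h2 hr)
    linear_combination h3
  refine ⟨u, hq, hp, ?_⟩
  have h4 : r ^ 2 * (4 * x * u ^ 4 - 8 * y * u ^ 3 - 12 * c * u ^ 2 + 4 * z * u + w) = 0 := by
    rw [hq, hp] at hB
    linear_combination hB
  exact (mul_eq_zero.1 h4).resolve_left (pow_ne_zero 2 hr)

/-- Over a field: two independent common isotropic vectors. -/
lemma fld {F : Type} [Field F] (h2 : (2 : F) ≠ 0) (x y c z w : F) (η η' : Fin 3 → F)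
    (hind : ∃ i j, η i * η' j - η j * η' i ≠ 0)
    (h : 2 * η 0 * η 2 + η 1 ^ 2 = 0)
    (hB : x * η 0 ^ 2 + 2 * y * η 0 * η 1 + 2 * c * η 0 * η 2 - 2 * c * η 1 ^ 2 +
      2 * z * η 1 * η 2 + w * η 2 ^ 2 = 0)
    (h' : 2 * η' 0 * η' 2 + η' 1 ^ 2 = 0)
    (hB' : x * η' 0 ^ 2 + 2 * y * η' 0 * η' 1 + 2 * c * η' 0 * η' 2 - 2 * c * η' 1 ^ 2 +
      2 * z * η' 1 * η' 2 + w * η' 2 ^ 2 = 0) :
    (∃ u u' : F, u ≠ u' ∧
      4 * x * u ^ 4 - 8 * y * u ^ 3 - 12 * c * u ^ 2 + 4 * z * u + w = 0 ∧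
      4 * x * u' ^ 4 - 8 * y * u' ^ 3 - 12 * c * u' ^ 2 + 4 * z * u' + w = 0) ∨
    (x = 0 ∧ ∃ u : F, 4 * x * u ^ 4 - 8 * y * u ^ 3 - 12 * c * u ^ 2 + 4 * z * u + w = 0) := by
  -- a vector with last coordinate zero is a multiple of `(1, 0, 0)`
  have key : ∀ v : Fin 3 → F, 2 * v 0 * v 2 + v 1 ^ 2 = 0 → v 2 = 0 → v 1 = 0 := by
    intro v hv h0
    rw [h0, mul_zero, zero_add] at hv
    exact pow_eq_zero_iff (two_ne_zero) |>.1 hv
  by_cases hr : η 2 = 0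
  · have h1 := key η h hr
    by_cases hr' : η' 2 = 0
    · exfalso
      have h1' := key η' h' hr'
      obtain ⟨i, j, hij⟩ := hind
      apply hij
      fin_cases i <;> fin_cases j <;> simp [hr, hr', h1, h1'] <;> ring
    · obtain ⟨u, hq, hp, hu⟩ := fld_gq h2 x y c z w _ _ _ hr' h' hB'
      right
      refine ⟨?_, u, hu⟩
      have h0 : η 0 ≠ 0 := by
        intro h0
        obtain ⟨i, j, hij⟩ := hind
        apply hij
        fin_cases i <;> fin_cases j <;> simp [hr, h1, h0]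
      have h3 : x * η 0 ^ 2 = 0 := by
        rw [hr, h1] at hB
        linear_combination hB
      exact (mul_eq_zero.1 h3).resolve_right (pow_ne_zero 2 h0)
  · obtain ⟨u, hq, hp, hu⟩ := fld_gq h2 x y c z w _ _ _ hr h hB
    by_cases hr' : η' 2 = 0
    · have h1' := key η' h' hr'
      right
      refine ⟨?_, u, hu⟩
      have h0 : η' 0 ≠ 0 := by
        intro h0
        obtain ⟨i, j, hij⟩ := hind
        apply hij
        fin_cases i <;> fin_cases j <;> simp [hr', h1', h0]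
      have h3 : x * η' 0 ^ 2 = 0 := by
        rw [hr', h1'] at hB'
        linear_combination hB'
      exact (mul_eq_zero.1 h3).resolve_right (pow_ne_zero 2 h0)
    · obtain ⟨u', hq', hp', hu'⟩ := fld_gq h2 x y c z w _ _ _ hr' h' hB'
      left
      refine ⟨u, u', ?_, hu, hu'⟩
      rintro rfl
      obtain ⟨i, j, hij⟩ := hind
      apply hij
      fin_cases i <;> fin_cases j <;> simp [hq, hq', hp, hp'] <;> ring

/-- ... and modulo a prime. -/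
lemma prm {Q : ℤ} (hQ : Prime Q) (h2 : ¬ Q ∣ 2) (x y c z w : ℤ) (η η' : Fin 3 → ℤ)
    (hind : ∃ i j, ¬ Q ∣ η i * η' j - η j * η' i)
    (h : Q ∣ 2 * η 0 * η 2 + η 1 ^ 2)
    (hB : Q ∣ x * η 0 ^ 2 + 2 * y * η 0 * η 1 + 2 * c * η 0 * η 2 - 2 * c * η 1 ^ 2 +
      2 * z * η 1 * η 2 + w * η 2 ^ 2)
    (h' : Q ∣ 2 * η' 0 * η' 2 + η' 1 ^ 2)
    (hB' : Q ∣ x * η' 0 ^ 2 + 2 * y * η' 0 * η' 1 + 2 * c * η' 0 * η' 2 - 2 * c * η' 1 ^ 2 +
      2 * z * η' 1 * η' 2 + w * η' 2 ^ 2) :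
    TT Q (⟨x, y, c, z, w⟩ : Tup ℤ) := by
  haveI hm : (Ideal.span {Q}).IsMaximal :=
    PrincipalIdealRing.isMaximal_of_irreducible hQ.irreducible
  letI : Field (ℤ ⧸ Ideal.span {Q}) := Ideal.Quotient.field (Ideal.span {Q})
  let f : ℤ →+* (ℤ ⧸ Ideal.span {Q}) := Ideal.Quotient.mk (Ideal.span {Q})
  have hf : ∀ n : ℤ, f n = 0 ↔ Q ∣ n := by
    intro n
    rw [Ideal.Quotient.eq_zero_iff_mem, Ideal.mem_span_singleton]
  have hs : Function.Surjective f := Ideal.Quotient.mk_surjective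
  have h2' : (2 : ℤ ⧸ Ideal.span {Q}) ≠ 0 := by
    intro h0
    apply h2
    rw [← hf, map_ofNat]
    exact h0
  have g1 : ∃ i j, f (η i) * f (η' j) - f (η j) * f (η' i) ≠ 0 := by
    obtain ⟨i, j, hij⟩ := hind
    refine ⟨i, j, ?_⟩
    intro h0
    apply hij
    rw [← hf, ← h0]
    simp only [map_add, map_sub, map_mul, map_pow, map_ofNat]
  have g2 := (hf _).2 h
  have g3 := (hf _).2 hB
  have g4 := (hf _).2 h'
  have g5 := (hf _).2 hB'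
  simp only [map_add, map_sub, map_mul, map_pow, map_ofNat] at g2 g3 g4 g5
  rcases fld h2' (f x) (f y) (f c) (f z) (f w) (fun i => f (η i)) (fun i => f (η' i)) g1 g2 g3 g4 g5
    with ⟨u, u', hne, hu, hu'⟩ | ⟨hx, u, hu⟩
  · obtain ⟨u, rfl⟩ := hs u
    obtain ⟨u', rfl⟩ := hs u'
    left
    refine ⟨u, u', ?_, ?_, ?_⟩
    · intro h0
      apply hne
      rw [← sub_eq_zero, ← map_sub, hf]
      exact h0
    · rw [← hf, ← hu]
      simp only [gq, map_add, map_sub, map_mul, map_pow, map_ofNat]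
    · rw [← hf, ← hu']
      simp only [gq, map_add, map_sub, map_mul, map_pow, map_ofNat]
  · obtain ⟨u, rfl⟩ := hs u
    right
    refine ⟨(hf _).1 hx, u, ?_⟩
    rw [← hf, ← hu]
    simp only [gq, map_add, map_sub, map_mul, map_pow, map_ofNat]

section cub

variable {L : Type} [Field L] [CharZero L] {a b : ℤ} {θ : L}

lemma co_crd (h : IsCub a b θ) {v : Fin 3 → ℤ} {x : L} (hx : Crd θ v x) (i : Fin 3) :
    h.co i x = (v i : ℚ) := by
  have h1 : x = ∑ j, (v j : ℚ) • h.basis j := by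
    rw [hx, Fin.sum_univ_three]
    simp only [IsCub.basis_apply, Rat.smul_def]
    simp [Pool.Agent.N922.PQ.vec]
  rw [IsCub.co, h1, Module.Basis.coord_apply, Module.Basis.repr_sum_self]

/-- The value of a quadratic form. -/
lemma quad (φ : L →ₗ[ℚ] ℚ) (α : L) (e : Fin 3 → L) (η : Fin 3 → ℤ) (G : Fin 3 → Fin 3 → ℤ)
    (hG : ∀ i j, φ (e i * e j / α) = (G i j : ℚ)) :
    φ ((∑ i, (η i : L) * e i) ^ 2 / α) = ((∑ i, ∑ j, η i * η j * G i j : ℤ) : ℚ) := by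
  have h1 : (∑ i, (η i : L) * e i) ^ 2 / α =
      ∑ i, ∑ j, ((η i * η j : ℤ) : ℚ) • (e i * e j / α) := by
    rw [pow_two, Finset.sum_mul_sum, Finset.sum_div]
    refine Finset.sum_congr rfl fun i _ => ?_
    rw [Finset.sum_div]
    refine Finset.sum_congr rfl fun j _ => ?_
    rw [Rat.smul_def]
    push_cast
    ring
  rw [h1, map_sum]
  push_cast
  refine Finset.sum_congr rfl fun i _ => ?_
  rw [map_sum]
  refine Finset.sum_congr rfl fun j _ => ?_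
  rw [map_smul, hG, smul_eq_mul]

end cub

/-- TTB -/
theorem ttb : S_TTB := by
  intro L _ _ a b θ h hsq α e e' U hα hU he' hli hJ B hB hB11 Q hQ h2 hT
  obtain ⟨ξ, ξ', hind, ⟨v, hv1, hv2, hv⟩, ⟨v', hv1', hv2', hv'⟩⟩ := hT
  have hinv : U⁻¹ * U = 1 := Matrix.nonsing_inv_mul U hU
  -- change of basis
  have hch : ∀ ξ : Fin 3 → ℤ, ∑ i, ((ξ ᵥ* U⁻¹) i : L) * e' i = ∑ i, (ξ i : L) * e i := by
    intro ξ
    have h1 : (ξ ᵥ* U⁻¹) ᵥ* U = ξ := by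
      rw [Matrix.vecMul_vecMul, hinv, Matrix.vecMul_one]
    generalize (ξ ᵥ* U⁻¹) = η at h1
    subst h1
    have h3 : ∀ i, ((((η ᵥ* U) i : ℤ)) : L) = ∑ j, (η j : L) * (U j i : L) := by
      intro i
      simp [Matrix.vecMul, dotProduct]
    simp_rw [h3, he', Finset.mul_sum, Finset.sum_mul]
    rw [Finset.sum_comm]
    refine Finset.sum_congr rfl fun i _ => Finset.sum_congr rfl fun j _ => ?_
    ring
  have hBs : ∀ i j, B i j = B j i := by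
    intro i j
    have h1 := hB i j
    rw [mul_comm, hB j i] at h1
    exact_mod_cast h1.symm
  have main : ∀ (ξ v : Fin 3 → ℤ), Q ∣ v 1 → Q ∣ v 2 →
      Crd θ v ((∑ i, (ξ i : L) * e i) ^ 2 / α) →
      Q ∣ 2 * (ξ ᵥ* U⁻¹) 0 * (ξ ᵥ* U⁻¹) 2 + (ξ ᵥ* U⁻¹) 1 ^ 2 ∧
      Q ∣ B 0 0 * (ξ ᵥ* U⁻¹) 0 ^ 2 + 2 * B 0 1 * (ξ ᵥ* U⁻¹) 0 * (ξ ᵥ* U⁻¹) 1 +
        2 * B 0 2 * (ξ ᵥ* U⁻¹) 0 * (ξ ᵥ* U⁻¹) 2 - 2 * B 0 2 * (ξ ᵥ* U⁻¹) 1 ^ 2 +
        2 * B 1 2 * (ξ ᵥ* U⁻¹) 1 * (ξ ᵥ* U⁻¹) 2 + B 2 2 * (ξ ᵥ* U⁻¹) 2 ^ 2 := by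
    intro ξ v hv1 hv2 hv
    rw [← hch] at hv
    generalize (ξ ᵥ* U⁻¹) = η at hv
    constructor
    · have h1 := co_crd h hv 2
      rw [quad (h.co 2) α e' η (fun i j => JJ i j) (fun i j => hJ i j)] at h1
      have h3 : ∑ i, ∑ j, η i * η j * JJ i j = v 2 := by exact_mod_cast h1
      rw [← h3] at hv2
      have h4 : ∑ i, ∑ j, η i * η j * JJ i j = 2 * η 0 * η 2 + η 1 ^ 2 := by
        simp [Fin.sum_univ_three, JJ]
        ring
      rwa [h4] at hv2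
    · have h1 := co_crd h hv 1
      rw [quad (h.co 1) α e' η B hB] at h1
      have h3 : ∑ i, ∑ j, η i * η j * B i j = v 1 := by exact_mod_cast h1
      rw [← h3] at hv1
      have h4 : ∑ i, ∑ j, η i * η j * B i j = B 0 0 * η 0 ^ 2 + 2 * B 0 1 * η 0 * η 1 +
        2 * B 0 2 * η 0 * η 2 - 2 * B 0 2 * η 1 ^ 2 +
        2 * B 1 2 * η 1 * η 2 + B 2 2 * η 2 ^ 2 := by
        simp only [Fin.sum_univ_three]
        rw [hB11, hBs 1 0, hBs 2 0, hBs 2 1]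
        ring
      rwa [h4] at hv1
  obtain ⟨m1, m2⟩ := main ξ v hv1 hv2 hv
  obtain ⟨m1', m2'⟩ := main ξ' v' hv1' hv2' hv'
  refine prm hQ h2 _ _ _ _ _ (ξ ᵥ* U⁻¹) (ξ' ᵥ* U⁻¹) ?_ m1 m2 m1' m2'
  by_contra hcon
  push Not at hcon
  obtain ⟨i, j, hij⟩ := hind
  apply hij
  have h1 : ∀ ξ : Fin 3 → ℤ, (ξ ᵥ* U⁻¹) ᵥ* U = ξ := by
    intro ξ
    rw [Matrix.vecMul_vecMul, hinv, Matrix.vecMul_one]
  have h3 : ξ i * ξ' j - ξ j * ξ' i = ∑ k, ∑ l, U k i * U l j *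
      ((ξ ᵥ* U⁻¹) k * (ξ' ᵥ* U⁻¹) l - (ξ ᵥ* U⁻¹) l * (ξ' ᵥ* U⁻¹) k) := by
    conv_lhs => rw [← h1 ξ, ← h1 ξ']
    generalize (ξ ᵥ* U⁻¹) = η
    generalize (ξ' ᵥ* U⁻¹) = η'
    simp only [Matrix.vecMul, dotProduct, Fin.sum_univ_three]
    ring
  rw [h3]
  exact Finset.dvd_sum fun k _ => Finset.dvd_sum fun l _ => Dvd.dvd.mul_left (hcon k l) _

end Pool.Agent.N774.PQ
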